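import Pool.Agent.W297.LP.Stm

/-!
Project LP (helper297), MP_6505eb_co: part MAIN.
-/

set_option autoImplicit false

open Finset

namespace Pool.Agent.W636.LP

open Pool.Agent.W297.LP

theorem ker_co {V : Type} {W : V → V → ℝ} (h : Ker W) : Ker (co W) := by
  refine ⟨fun x y => ?_, fun x y => ?_⟩
  · simp only [co, h.symm x y]
  · rcases h.zo x y with h0 | h0
    · right; simp [co, h0]
    · left; simp [co, h0]

theorem co_co {V : Type} (W : V → V → ℝ) : co (co W) = W := by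
  funext x y
  simp [co]

theorem ker_nonneg {V : Type} {W : V → V → ℝ} (h : Ker W) (x y : V) : 0 ≤ W x y := by
  rcases h.zo x y with h0 | h0 <;> simp [h0]

theorem td_nonneg {V : Type} [Fintype V] {W : V → V → ℝ} (h : Ker W) (T : Tr) :
    ∀ x, 0 ≤ td W T x := by
  induction T with
  | pt => intro x; simp [td]
  | br A B ihA ihB =>
    intro x
    simp only [td]
    refine mul_nonneg (ihA x) (div_nonneg (Finset.sum_nonneg fun y _ => ?_) (Nat.cast_nonneg _))
    exact mul_nonneg (ker_nonneg h x y) (ihB y)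

theorem lol_nonneg {V : Type} [Fintype V] {k : ℕ} {W : V → V → ℝ} (h : Ker W) (T : Fin k → Tr) :
    0 ≤ lol W T := by
  unfold lol
  refine div_nonneg (Finset.sum_nonneg fun x _ => Finset.prod_nonneg fun i _ => ?_)
    (pow_nonneg (Nat.cast_nonneg _) _)
  exact td_nonneg h _ _

theorem main : SSets → SSym → SDich5 → SDich4 → SAlmost → SStab → SLocal → SMain := by
  intro hSets hSym hD5 hD4 hAlm hStab hLoc k hk
  obtain ⟨δL, NL, hδL, hLoc'⟩ := hLoc k hk
  obtain ⟨δ1, hδ1, hStab'⟩ := hStab k hk δL hδL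
  obtain ⟨e1, δ2, he1, hδ2, hAlm'⟩ := hAlm k hk δ1 hδ1
  -- the dichotomy
  have hD : ∃ (e : ℝ) (n0 : ℕ), 0 < e ∧
      ∀ (V : Type) [Fintype V] [DecidableEq V] (W : V → V → ℝ) (D1 D2 : Finset V), Ker W →
        0 < Fintype.card V → n0 ≤ Fintype.card V → Ext k e W D1 D2 →
        1 - δ2 ≤ ms D2 ∨ 1 - δ2 ≤ ms D1 := by
    rcases Nat.lt_or_ge 4 k with h5 | h4
    · obtain ⟨e, he, h⟩ := hD5 k h5 δ2 hδ2
      refine ⟨e, 0, he, ?_⟩
      intro V _ _ W D1 D2 hW hV _ hE
      exact h V W D1 D2 hW hV hE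
    · obtain rfl : k = 4 := le_antisymm h4 hk
      exact hD4 δ2 hδ2
  obtain ⟨e2, n2, he2, hD'⟩ := hD
  obtain ⟨N2, hSets'⟩ := hSets k hk (min e1 e2) (lt_min he1 he2)
  refine ⟨max NL N2, max 1 n2, ?_⟩
  intro V _ W hW hn T hT
  classical
  by_contra hcon
  push Not at hcon
  have hV : 0 < Fintype.card V := lt_of_lt_of_le Nat.one_pos (le_trans (le_max_left _ _) hn)
  have hn2 : n2 ≤ Fintype.card V := le_trans (le_max_right _ _) hn
  have hTL : NL ≤ tot T := le_trans (le_max_left _ _) hT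
  have hT2 : N2 ≤ tot T := le_trans (le_max_right _ _) hT
  have hWc := ker_co hW
  have h1 := lol_nonneg hW T
  have h2 := lol_nonneg hWc T
  obtain ⟨D1, D2, hE⟩ := hSets' V W hW T hT2 (by linarith) (by linarith)
  have hE1 : Ext k e1 W D1 D2 := hSym.2 k _ _ V W D1 D2 hk (min_le_left _ _) hE
  have hE2 : Ext k e2 W D1 D2 := hSym.2 k _ _ V W D1 D2 hk (min_le_right _ _) hE
  rcases hD' V W D1 D2 hW hV hn2 hE2 with h | h
  · have hA := hAlm' V W D1 D2 hW hV hE1 h
    have hN := hStab' V W hW hV hA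
    have := hLoc' V W hW hV hN T hTL
    linarith
  · have hEc := hSym.1 k _ V W D1 D2 hW hE1
    have hA := hAlm' V (co W) D2 D1 hWc hV hEc h
    have hN := hStab' V (co W) hWc hV hA
    have := hLoc' V (co W) hWc hV hN T hTL
    rw [co_co] at this
    linarith

end Pool.Agent.W636.LP
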